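import Pool.Agent.H70.Wuu

namespace Pool.Agent.Results.MP_2093e0_al.Equivalence

open Pool.Agent.H70.Wuu

theorem result (R : Type*) [Ring R] : SWNC R ↔ SemiPotent R ∧ WUU R := main

end Pool.Agent.Results.MP_2093e0_al.Equivalence
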